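import Mathlib
import Pool.Agent.MP_ba281e_nt.SquareDen

/-!
Disproof of Q1: an irrational number of type 3 along which no subsequence is Poissonian.
-/

open Filter Topology MeasureTheory

namespace Pool.Agent.Results.MP_ba281e_nt.NoPoissonSubseq

/-- `α` is of type `κ`: `|α - a/q| ≥ C q^(-κ)` for all coprime integers `a`, `q` with `q ≥ 1`. -/
def IsOfType (κ : ℝ) (α : ℝ) : Prop :=
  ∃ C : ℝ, 0 < C ∧ ∀ a q : ℤ, 1 ≤ q → Int.gcd a q = 1 → C * (q : ℝ) ^ (-κ) ≤ |α - (a : ℝ) / q|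

/-- `x_n = {n² α}`. -/
noncomputable def pt (α : ℝ) (n : ℕ) : ℝ := Int.fract ((n : ℝ) ^ 2 * α)

/-- The `k`-level correlation `R_k(N, α, f)` with `k = d + 1`, for `f : ℝ^d → ℝ`. -/
noncomputable def corr (d N : ℕ) (α : ℝ) (f : (Fin d → ℝ) → ℝ) : ℝ :=
  (1 / (N : ℝ)) *
    ∑ n ∈ (Fintype.piFinset fun _ : Fin (d + 1) => Finset.Icc 1 N) with Function.Injective n,
      ∑' m : Fin d → ℤ,
        f fun i => (N : ℝ) * (pt α (n i.castSucc) - pt α (n i.succ) + (m i : ℝ))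

/-- `{n² α}` is Poissonian along `N_j`: every `k`-level correlation, `k = d + 1 ≥ 2`,
tends to the integral of the test function. -/
def PoissonianAlong (α : ℝ) (N : ℕ → ℕ) : Prop :=
  ∀ d : ℕ, 1 ≤ d → ∀ f : (Fin d → ℝ) → ℝ, Continuous f → HasCompactSupport f →
    Tendsto (fun j => corr d (N j) α f) atTop (𝓝 (∫ y, f y))

/-- The test function. -/
noncomputable def bump (d : ℕ) (y : Fin d → ℝ) : ℝ := max 0 (2 - ‖y‖)

lemma bump_nonneg (d : ℕ) (y : Fin d → ℝ) : 0 ≤ bump d y := le_max_left _ _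

lemma bump_continuous (d : ℕ) : Continuous (bump d) := by
  unfold bump; fun_prop

lemma bump_eq_zero {d : ℕ} {y : Fin d → ℝ} (h : 2 ≤ ‖y‖) : bump d y = 0 := by
  unfold bump; exact max_eq_left (by linarith)

lemma bump_compact (d : ℕ) : HasCompactSupport (bump d) := by
  refine HasCompactSupport.intro (isCompact_closedBall (0 : Fin d → ℝ) 2) ?_
  intro y hy
  rw [mem_closedBall_zero_iff, not_le] at hy
  exact bump_eq_zero hy.le

lemma one_le_bump {d : ℕ} {y : Fin d → ℝ} (h : ‖y‖ ≤ 1) : 1 ≤ bump d y := by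
  unfold bump; exact le_max_of_le_right (by linarith)

lemma summable_bump (d N : ℕ) (hN : 1 ≤ N) (z : Fin d → ℝ) :
    Summable fun m : Fin d → ℤ => bump d fun i => (N : ℝ) * (z i + (m i : ℝ)) := by
  refine summable_of_ne_finset_zero
    (s := Fintype.piFinset fun i : Fin d => Finset.Icc (⌊-z i⌋ - 2) (⌈-z i⌉ + 2)) ?_
  intro m hm
  rw [Fintype.mem_piFinset, not_forall] at hm
  obtain ⟨i, hi⟩ := hm
  refine bump_eq_zero (le_trans ?_ (norm_le_pi_norm _ i))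
  have hN' : (1 : ℝ) ≤ N := by exact_mod_cast hN
  have h2 : (2 : ℝ) ≤ |z i + (m i : ℝ)| := by
    rw [Finset.mem_Icc, not_and_or, not_le, not_le] at hi
    rcases hi with hi | hi
    · have h1 : (m i : ℝ) < (⌊-z i⌋ : ℝ) - 2 := by exact_mod_cast hi
      have := Int.floor_le (-z i)
      exact le_trans (by linarith) (neg_le_abs _)
    · have h1 : (⌈-z i⌉ : ℝ) + 2 < (m i : ℝ) := by exact_mod_cast hi
      have := Int.le_ceil (-z i)
      exact le_trans (by linarith) (le_abs_self _)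
  rw [Real.norm_eq_abs, abs_mul, abs_of_nonneg (by linarith : (0 : ℝ) ≤ N)]
  nlinarith

/-- A cluster of `K` points in one window forces a large correlation. -/
lemma corr_ge (d N K w : ℕ) (α : ℝ) (a : ℤ) (hN : 1 ≤ N) (hw : 1 ≤ w) (hKw : K * w ≤ N)
    (hθ : (N : ℝ) * (K : ℝ) ^ 2 * |(w : ℝ) ^ 2 * α - a| ≤ 1) :
    (K.descFactorial (d + 1) : ℝ) / N ≤ corr d N α (bump d) := by
  classical
  have hN0 : (0 : ℝ) < N := by exact_mod_cast hN
  unfold corr
  rw [div_eq_mul_one_div, mul_comm]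
  refine mul_le_mul_of_nonneg_left ?_ (by positivity)
  set g : (Fin (d + 1) ↪ Fin K) → (Fin (d + 1) → ℕ) := fun e i => w * ((e i : ℕ) + 1) with hg
  have hginj : Function.Injective g := by
    intro e e' h
    ext i
    have := congrFun h i
    simp only [hg] at this
    have := Nat.eq_of_mul_eq_mul_left hw this
    omega
  have hsub : Finset.univ.image g ⊆
      (Fintype.piFinset fun _ : Fin (d + 1) => Finset.Icc 1 N).filter Function.Injective := by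
    intro n hn
    obtain ⟨e, -, rfl⟩ := Finset.mem_image.1 hn
    rw [Finset.mem_filter, Fintype.mem_piFinset]
    refine ⟨fun i => ?_, fun i j h => ?_⟩
    · rw [Finset.mem_Icc]
      have := (e i).2
      simp only [hg]
      constructor
      · nlinarith
      · nlinarith
    · simp only [hg] at h
      have := Nat.eq_of_mul_eq_mul_left hw h
      exact e.injective (Fin.ext (by omega))
  have hcard : (Finset.univ.image g).card = K.descFactorial (d + 1) := by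
    rw [Finset.card_image_of_injective _ hginj, Finset.card_univ, Fintype.card_embedding_eq]
    simp
  refine le_trans ?_ (Finset.sum_le_sum_of_subset_of_nonneg hsub
    (fun n _ _ => tsum_nonneg fun m => bump_nonneg _ _))
  rw [← hcard]
  refine le_trans (le_of_eq (by simp)) (Finset.sum_le_sum (f := fun _ => (1 : ℝ)) ?_)
  intro n hn
  obtain ⟨e, -, rfl⟩ := Finset.mem_image.1 hn
  set θ : ℝ := (w : ℝ) ^ 2 * α - a with hθdef
  let c : Fin (d + 1) → ℤ := fun i => ⌊((g e i : ℕ) : ℝ) ^ 2 * α⌋ - a * ((e i : ℕ) + 1) ^ 2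
  have hpt : ∀ i, pt α (g e i) + c i = θ * (((e i : ℕ) : ℝ) + 1) ^ 2 := by
    intro i
    simp only [pt, c, Int.fract, hg, hθdef]
    push_cast
    ring
  have hs := summable_bump d N hN (fun i => pt α (g e i.castSucc) - pt α (g e i.succ))
  refine le_trans ?_ (hs.le_tsum (fun i => c i.castSucc - c i.succ) fun m _ => bump_nonneg _ _)
  refine one_le_bump ?_
  rw [pi_norm_le_iff_of_nonneg zero_le_one]
  intro i
  have h1 := hpt i.castSucc
  have h2 := hpt i.succ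
  have h3 : pt α (g e i.castSucc) - pt α (g e i.succ) + ((c i.castSucc - c i.succ : ℤ) : ℝ)
      = θ * ((((e i.castSucc : ℕ) : ℝ) + 1) ^ 2 - (((e i.succ : ℕ) : ℝ) + 1) ^ 2) := by
    push_cast; linarith
  rw [h3, Real.norm_eq_abs, abs_mul, abs_mul, abs_of_pos hN0]
  have hb : ∀ x : Fin K, (((x : ℕ) : ℝ) + 1) ^ 2 ≤ (K : ℝ) ^ 2 := by
    intro x
    have : ((x : ℕ) : ℝ) + 1 ≤ K := by exact_mod_cast x.2
    gcongr
  have h4 : |(((e i.castSucc : ℕ) : ℝ) + 1) ^ 2 - (((e i.succ : ℕ) : ℝ) + 1) ^ 2| ≤ (K : ℝ) ^ 2 := by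
    have a1 := hb (e i.castSucc)
    have a2 := hb (e i.succ)
    have a3 := sq_nonneg (((e i.castSucc : ℕ) : ℝ) + 1)
    have a4 := sq_nonneg (((e i.succ : ℕ) : ℝ) + 1)
    rw [abs_le]; constructor <;> linarith
  calc (N : ℝ) * (|θ| * |(((e i.castSucc : ℕ) : ℝ) + 1) ^ 2 - (((e i.succ : ℕ) : ℝ) + 1) ^ 2|)
      ≤ (N : ℝ) * (|θ| * (K : ℝ) ^ 2) := by gcongr
    _ = (N : ℝ) * (K : ℝ) ^ 2 * |θ| := by ring
    _ ≤ 1 := hθ

open Pool.Agent.MP_ba281e_nt in
lemma corr_alpha_ge (N K : ℕ) (hK : 9 ≤ K) (h1 : K ^ 4 ≤ N) (h2 : N < (K + 1) ^ 4) :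
    ((K : ℝ) + 1) / 32 ≤ corr 4 N alpha (bump 4) := by
  have hN : 1 ≤ N := le_trans (Nat.one_le_pow _ _ (by omega)) h1
  have hN0 : (0 : ℝ) < N := by exact_mod_cast hN
  obtain ⟨w, a, hw, hw4, hθ⟩ := exists_square_approx N hN
  have hKw : K * w ≤ N := by
    have : (K * w) ^ 4 ≤ N ^ 4 := by
      rw [mul_pow, pow_succ' N 3]; exact Nat.mul_le_mul h1 hw4
    exact (Nat.pow_le_pow_iff_left (by norm_num)).1 this
  have h1' : (K : ℝ) ^ 4 ≤ N := by exact_mod_cast h1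
  have hθ' : (N : ℝ) * (K : ℝ) ^ 2 * |(w : ℝ) ^ 2 * alpha - a| ≤ 1 := by
    have : ((N : ℝ) * (K : ℝ) ^ 2 * |(w : ℝ) ^ 2 * alpha - a|) ^ 2 ≤ 1 := by
      calc ((N : ℝ) * (K : ℝ) ^ 2 * |(w : ℝ) ^ 2 * alpha - a|) ^ 2
          = (N : ℝ) ^ 2 * (K : ℝ) ^ 4 * ((w : ℝ) ^ 2 * alpha - a) ^ 2 := by
            rw [mul_pow, mul_pow, sq_abs]; ring
        _ ≤ (N : ℝ) ^ 2 * N * ((w : ℝ) ^ 2 * alpha - a) ^ 2 := by gcongr
        _ = (N : ℝ) ^ 3 * ((w : ℝ) ^ 2 * alpha - a) ^ 2 := by ring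
        _ ≤ 1 := hθ
    exact (sq_le_one_iff₀ (by positivity)).1 this
  refine le_trans ?_ (corr_ge 4 N K w alpha a hN hw hKw hθ')
  have h3 : (K + 1 - 5) ^ 5 ≤ K.descFactorial 5 := Nat.pow_sub_le_descFactorial K 5
  have h4 : ((K : ℝ) - 4) ^ 5 ≤ (K.descFactorial (4 + 1) : ℝ) := by
    have e : ((K + 1 - 5 : ℕ) : ℝ) = (K : ℝ) - 4 := by
      rw [Nat.cast_sub (by omega)]; push_cast; ring
    rw [← e]; exact_mod_cast h3
  have hK' : (9 : ℝ) ≤ K := by exact_mod_cast hK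
  have h5 : (N : ℝ) ≤ ((K : ℝ) + 1) ^ 4 := by exact_mod_cast h2.le
  rw [div_le_div_iff₀ (by norm_num) hN0]
  have h6 : (((K : ℝ) + 1) / 2) ^ 5 ≤ ((K : ℝ) - 4) ^ 5 := by
    gcongr; linarith
  calc ((K : ℝ) + 1) * N ≤ ((K : ℝ) + 1) * ((K : ℝ) + 1) ^ 4 := by gcongr
    _ = (((K : ℝ) + 1) / 2) ^ 5 * 32 := by ring
    _ ≤ (K.descFactorial (4 + 1) : ℝ) * 32 := by gcongr; exact h6.trans h4

open Pool.Agent.MP_ba281e_nt in
lemma corr_alpha_tendsto : Tendsto (fun N => corr 4 N alpha (bump 4)) atTop atTop := by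
  rw [tendsto_atTop_atTop]
  intro B
  obtain ⟨K₀, hK₀⟩ := exists_nat_ge (32 * B)
  refine ⟨(K₀ + 9) ^ 4, fun N hN => ?_⟩
  set K := Nat.sqrt (Nat.sqrt N) with hK
  have a1 : K ^ 2 ≤ Nat.sqrt N := Nat.sqrt_le' _
  have a2 : (Nat.sqrt N) ^ 2 ≤ N := Nat.sqrt_le' _
  have a3 : Nat.sqrt N < (K + 1) ^ 2 := Nat.lt_succ_sqrt' _
  have a4 : N < (Nat.sqrt N + 1) ^ 2 := Nat.lt_succ_sqrt' _
  have h1 : K ^ 4 ≤ N := by
    calc K ^ 4 = (K ^ 2) ^ 2 := by ring
      _ ≤ (Nat.sqrt N) ^ 2 := by gcongr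
      _ ≤ N := a2
  have h2 : N < (K + 1) ^ 4 := by
    calc N < (Nat.sqrt N + 1) ^ 2 := a4
      _ ≤ ((K + 1) ^ 2) ^ 2 := by gcongr; omega
      _ = (K + 1) ^ 4 := by ring
  have h3 : K₀ + 9 < K + 1 := by
    by_contra hc
    have : (K + 1) ^ 4 ≤ (K₀ + 9) ^ 4 := Nat.pow_le_pow_left (by omega) 4
    omega
  refine le_trans ?_ (corr_alpha_ge N K (by omega) h1 h2)
  have : (K₀ : ℝ) ≤ K := by exact_mod_cast (by omega : K₀ ≤ K)
  linarith

open Pool.Agent.MP_ba281e_nt in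
lemma alpha_type : IsOfType 3 alpha := by
  refine ⟨1 / 8, by norm_num, fun a q hq _ => ?_⟩
  obtain ⟨b, rfl⟩ := Int.eq_ofNat_of_zero_le (by omega : 0 ≤ q)
  have hb : 1 ≤ b := by exact_mod_cast hq
  have hb0 : (0 : ℝ) < b := by exact_mod_cast hb
  have h := cubic_bound a b hb
  have e : |(b : ℝ) * alpha - a| = b * |alpha - (a : ℝ) / b| := by
    rw [← abs_of_pos hb0, ← abs_mul, abs_of_pos hb0]; congr 1; field_simp
  rw [e] at h
  push_cast
  rw [Real.rpow_neg hb0.le, show (3 : ℝ) = ((3 : ℕ) : ℝ) by norm_num, Real.rpow_natCast,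
    ← div_eq_mul_inv, div_le_iff₀ (by positivity)]
  nlinarith

/-- There is an irrational `α` of type `3` such that `{n² α}` is Poissonian along no sequence
`N_j → ∞`. -/
theorem result : ∃ α : ℝ, Irrational α ∧ IsOfType 3 α ∧
    ∀ N : ℕ → ℕ, Tendsto N atTop atTop → ¬ PoissonianAlong α N := by
  refine ⟨_, Pool.Agent.MP_ba281e_nt.alpha_irrational, alpha_type, fun N hN h => ?_⟩
  exact not_tendsto_nhds_of_tendsto_atTop (corr_alpha_tendsto.comp hN) _
    (h 4 (by norm_num) (bump 4) (bump_continuous 4) (bump_compact 4))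

end Pool.Agent.Results.MP_ba281e_nt.NoPoissonSubseq
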