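import Mathlib
import Pool.Agent.MP_ba281e_nt.SquareDen
import Pool.Agent.MP_ba281e_nt.sg.Ari
import Pool.Agent.MP_ba281e_nt.sg.Cal
import Pool.Agent.MP_ba281e_nt.sg.Elim
import Pool.Agent.MP_ba281e_nt.sg.Fin2
import Pool.Agent.MP_ba281e_nt.sg.Fou
import Pool.Agent.MP_ba281e_nt.sg.Key
import Pool.Agent.MP_ba281e_nt.sg.Mom
import Pool.Agent.MP_ba281e_nt.sg.Pw2
import Pool.Agent.MP_ba281e_nt.sg.Rel
import Pool.Agent.MP_ba281e_nt.sg.Rho
import Pool.Agent.MP_ba281e_nt.sg.Sym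
import Pool.Agent.MP_ba281e_nt.sg.Tr2
import Pool.Agent.MP_ba281e_nt.sg.Ve

/-!
Poisson laws for all neighbour spacings of `n ^ 2 * α` modulo one along a subsequence, when `α` has
rational approximations of order `3 - ε` whose denominators have a large square divisor.
-/

open Filter Topology

namespace Pool.Agent.Results.MP_ba281e_nt.SquareSpacings

/-- `x_n = {n² α}`. -/
noncomputable def pt (α : ℝ) (n : ℕ) : ℝ := Int.fract ((n : ℝ) ^ 2 * α)

/-- The number of `n` in `[1, N]` such that at most `k` other points `x_m`, `m` in `[1, N]`, lie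
within `σ / N` ahead of `x_n` on the circle: the spacing from `x_n` to its `(k + 1)`-th next
neighbour exceeds `σ / N`. -/
noncomputable def longSpacings (α : ℝ) (N k : ℕ) (σ : ℝ) : ℕ :=
  Set.ncard {n : ℕ | 1 ≤ n ∧ n ≤ N ∧
    Set.ncard {m : ℕ | 1 ≤ m ∧ m ≤ N ∧ m ≠ n ∧ Int.fract (pt α m - pt α n) ≤ σ / N} ≤ k}

open Pool.Agent.MP_ba281e_nt in
lemma longSpacings_eq (α : ℝ) (N k : ℕ) (σ : ℝ) :
    longSpacings α N k σ = SG.nbCount α N k σ := by
  unfold longSpacings SG.nbCount pt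
  simp only [← Set.ncard_coe_finset, Finset.coe_filter, Finset.mem_Icc, and_assoc]

open Pool.Agent.MP_ba281e_nt.SG in
/-- If for every `ε > 0` there are reduced fractions `a / q`, `q` arbitrarily large, with
`|α - a / q| ≤ q ^ (-3 + ε)` and `s ^ 2 ∣ q` for some `s ≥ q ^ η`, then along one sequence
`N_j → ∞` the scaled spacings to the `(k + 1)`-th neighbour of `{n² α}`, `n ≤ N_j`, have the limit
law `s ^ k e ^ (-s) / k! ds` for every `k`. -/
theorem result (α η : ℝ) (hη : 0 < η)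
    (h : ∀ ε : ℝ, 0 < ε → ∀ Q : ℕ, ∃ (a : ℤ) (q s : ℕ), Q ≤ q ∧ Int.gcd a q = 1 ∧ s ^ 2 ∣ q ∧
      (q : ℝ) ^ η ≤ s ∧ |α - a / q| ≤ (q : ℝ) ^ (-3 + ε)) :
    ∃ N : ℕ → ℕ, Tendsto N atTop atTop ∧ ∀ (k : ℕ) (σ : ℝ), 0 ≤ σ →
      Tendsto (fun j => (longSpacings α (N j) k σ : ℝ) / N j) atTop
        (𝓝 (∑ i ∈ Finset.range (k + 1), Real.exp (-σ) * σ ^ i / i.factorial)) := by
  simp only [longSpacings_eq]
  exact fin2 ari (veS pw2 tru ari (momS fou (err key (rel elim root) ari) (rho sym ari var))) tr2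
    cal α η hη h

open Pool.Agent.MP_ba281e_nt in
/-- The hypothesis holds, with `η = 1 / 2`, for the number `alpha` of type `3` used in the
hand-in `NoPoissonSubseq`. -/
lemma alpha_hyp (ε : ℝ) (hε : 0 < ε) (Q : ℕ) : ∃ (a : ℤ) (q s : ℕ), Q ≤ q ∧ Int.gcd a q = 1 ∧
    s ^ 2 ∣ q ∧ (q : ℝ) ^ (1 / 2 : ℝ) ≤ s ∧ |alpha - a / q| ≤ (q : ℝ) ^ (-3 + ε) := by
  have h0 := v_pos (Q + 1)
  have h1 : (1 : ℝ) ≤ v (Q + 1) := by exact_mod_cast h0
  refine ⟨p (Q + 1), v (Q + 1) ^ 2, v (Q + 1), ?_, ?_, dvd_rfl, ?_, ?_⟩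
  · have := v_strictMono.le_apply (x := Q + 1)
    nlinarith
  · have h2 := det (Q + 1)
    have h3 : ((-1 : ℤ) ^ (Q + 1)) * (-1) ^ (Q + 1) = 1 := by rw [← mul_pow]; simp
    refine Int.isCoprime_iff_gcd_eq_one.1
      ⟨-(-1) ^ (Q + 1) * q (Q + 1 + 1), (-1) ^ (Q + 1) * p (Q + 1 + 1), ?_⟩
    have h4 : ((v (Q + 1) ^ 2 : ℕ) : ℤ) = q (Q + 1) := by simp [q]
    rw [h4]
    linear_combination (-1) ^ (Q + 1) * h2 + h3
  · rw [← Real.sqrt_eq_rpow]
    push_cast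
    rw [Real.sqrt_sq (by positivity)]
  · have h4 : ((v (Q + 1) ^ 2 : ℕ) : ℝ) = (q (Q + 1) : ℝ) := by simp [q]
    have h5 : (1 : ℝ) ≤ q (Q + 1) := by exact_mod_cast q_pos (Q + 1)
    have h6 : (q (Q + 1) : ℝ) ^ 2 ≤ q (Q + 1 + 1) := by
      have : v (Q + 1) ^ 2 ≤ v (Q + 2) := by rw [v_succ_succ]; omega
      have : (v (Q + 1) ^ 2) ^ 2 ≤ v (Q + 2) ^ 2 := by gcongr
      simp only [q]; exact_mod_cast this
    have h7 := E_le (Q + 1)
    have h8 := E_nonneg (Q + 1)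
    have e : |alpha - (p (Q + 1) : ℝ) / q (Q + 1)| = E (Q + 1) / q (Q + 1) := by
      rw [← abs_err, eq_div_iff (by positivity), ← abs_of_pos (show (0 : ℝ) < q (Q + 1) by
        positivity), ← abs_mul, abs_of_pos (show (0 : ℝ) < q (Q + 1) by positivity)]
      congr 1
      field_simp
    rw [h4, e]
    refine le_trans ?_ (Real.rpow_le_rpow_of_exponent_le h5 (show (-3 : ℝ) ≤ -3 + ε by linarith))
    rw [Real.rpow_neg (by positivity), show (3 : ℝ) = ((3 : ℕ) : ℝ) by norm_num,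
      Real.rpow_natCast, ← one_div, div_le_div_iff₀ (by positivity) (by positivity)]
    have h9 : (q (Q + 1) : ℝ) ^ 2 * E (Q + 1) ≤ 1 := le_trans (by gcongr) h7
    nlinarith

open Pool.Agent.MP_ba281e_nt in
/-- So the spacings of that number follow the Poisson laws along a subsequence. -/
lemma alpha_spacings : ∃ N : ℕ → ℕ, Tendsto N atTop atTop ∧ ∀ (k : ℕ) (σ : ℝ), 0 ≤ σ →
    Tendsto (fun j => (longSpacings alpha (N j) k σ : ℝ) / N j) atTop
      (𝓝 (∑ i ∈ Finset.range (k + 1), Real.exp (-σ) * σ ^ i / i.factorial)) :=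
  result alpha (1 / 2) (by norm_num) alpha_hyp

end Pool.Agent.Results.MP_ba281e_nt.SquareSpacings
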